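import Mathlib

/-!
PROJECT LT2 (MP_274814_nt), the zero estimate for two arbitrary distinct CM types: linear algebra.
`E = C^(U + U)`, written `Fin 2 → U → ℂ`. `U` is a finite group (the units mod `q`), `A 0`, `A 1`
are the two types (half systems for the central involution `n`), `M` is a set of rational vectors.
-/

namespace Pool.Agent.Helper16.LV

open Finset

noncomputable section

set_option linter.unusedSectionVars false

variable {U : Type} [Fintype U] [DecidableEq U] [Group U]

/-- `E` -/
abbrev EE (U : Type) : Type := Fin 2 → U → ℂ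

/-- projection to the coordinates in a decidable set of indices -/
def prj (A : Fin 2 → U → Prop) [∀ i u, Decidable (A i u)] : EE U →ₗ[ℂ] EE U where
  toFun x i u := if A i u then x i u else 0
  map_add' x y := by
    funext i u
    by_cases h : A i u <;> simp [h]
  map_smul' c x := by
    funext i u
    by_cases h : A i u <;> simp [h]

theorem prj_apply (A : Fin 2 → U → Prop) [∀ i u, Decidable (A i u)] (x : EE U) (i : Fin 2)
    (u : U) : prj A x i u = if A i u then x i u else 0 := rfl

/-- the coordinates of a vector, all moved by `s` -/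
def IsRat (K : Subfield ℂ) (σ : U → K →+* K) (x : EE U) : Prop :=
  ∀ (i : Fin 2) (u : U), ∃ y : K, (y : ℂ) = x i u ∧ ∀ s : U, ((σ s y : K) : ℂ) = x i (s * u)

/-- A `K`-linear retraction of `ℂ` onto `K`. -/
theorem exists_retr (K : Subfield ℂ) : ∃ f : ℂ →ₗ[K] K, ∀ y : K, f (y : ℂ) = y := by
  have h : LinearMap.ker (Algebra.linearMap K ℂ) = ⊥ := by
    rw [LinearMap.ker_eq_bot]
    intro a b hab
    exact Subtype.ext hab
  obtain ⟨f, hf⟩ := LinearMap.exists_leftInverse_of_injective (Algebra.linearMap K ℂ) h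
  refine ⟨f, fun y => ?_⟩
  exact LinearMap.congr_fun hf y

/-- Galois: if the projection to `A` maps `M` into its span, then so does the projection to
`s A`. -/
theorem gal (K : Subfield ℂ) (σ : U → K →+* K) (A : Fin 2 → Finset U) (M : Set (EE U))
    (hM : ∀ x ∈ M, IsRat K σ x)
    (hP : ∀ x ∈ M, prj (fun i u => u ∈ A i) x ∈ Submodule.span ℂ M) (s : U) :
    ∀ x ∈ M, prj (fun i u => s⁻¹ * u ∈ A i) x ∈ Submodule.span ℂ M := by
  classical
  intro x hx
  obtain ⟨f, hf⟩ := exists_retr K
  have h1 := hP x hx
  rw [Submodule.mem_span_set] at h1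
  obtain ⟨c, hc, hc'⟩ := h1
  -- the coefficients after the retraction and the automorphism
  have h2 : prj (fun i u => s⁻¹ * u ∈ A i) x =
      c.sum fun m a => ((σ s (f a) : K) : ℂ) • m := by
    funext i u
    have h3 : prj (fun i u => u ∈ A i) x i (s⁻¹ * u) = (c.sum fun m a => a • m) i (s⁻¹ * u) := by
      rw [← hc']
    rw [prj_apply] at h3 ⊢
    -- choose the elements of K
    obtain ⟨y, hy, hy'⟩ := hM x hx i (s⁻¹ * u)
    have h4 : ∀ m ∈ c.support, ∃ y : K, (y : ℂ) = m i (s⁻¹ * u) ∧
        ((σ s y : K) : ℂ) = m i u := by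
      intro m hm
      obtain ⟨z, hz, hz'⟩ := hM m (hc hm) i (s⁻¹ * u)
      refine ⟨z, hz, ?_⟩
      rw [hz' s, mul_inv_cancel_left]
    choose! z hz hz' using h4
    have h5 : (c.sum fun m a => a • m) i (s⁻¹ * u) = ∑ m ∈ c.support, c m * (z m : ℂ) := by
      rw [Finsupp.sum, Finset.sum_apply, Finset.sum_apply]
      refine Finset.sum_congr rfl fun m hm => ?_
      rw [Pi.smul_apply, Pi.smul_apply, smul_eq_mul, hz m hm]
    have h6 : (c.sum fun m a => ((σ s (f a) : K) : ℂ) • m) i u =
        ∑ m ∈ c.support, ((σ s (f (c m)) : K) : ℂ) * m i u := by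
      rw [Finsupp.sum, Finset.sum_apply, Finset.sum_apply]
      rfl
    rw [h5] at h3
    rw [h6]
    have h7 : f (∑ m ∈ c.support, c m * (z m : ℂ)) = ∑ m ∈ c.support, f (c m) * z m := by
      rw [map_sum]
      refine Finset.sum_congr rfl fun m _ => ?_
      have : c m * (z m : ℂ) = z m • c m := by
        rw [mul_comm]
        rfl
      rw [this, map_smul, smul_eq_mul, mul_comm]
    have h8 : (if s⁻¹ * u ∈ A i then y else 0) = ∑ m ∈ c.support, f (c m) * z m := by
      rw [← h7, ← h3]
      by_cases h : s⁻¹ * u ∈ A i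
      · rw [if_pos h, if_pos h, ← hy, hf]
      · rw [if_neg h, if_neg h, map_zero]
    have h9 := congrArg (fun w => ((σ s w : K) : ℂ)) h8
    simp only [map_sum, map_mul] at h9
    have h10 : ((σ s (if s⁻¹ * u ∈ A i then y else 0) : K) : ℂ) =
        if s⁻¹ * u ∈ A i then x i u else 0 := by
      by_cases h : s⁻¹ * u ∈ A i
      · rw [if_pos h, if_pos h, hy' s, mul_inv_cancel_left]
      · rw [if_neg h, if_neg h, map_zero]
        rfl
    rw [h10] at h9
    rw [h9]
    push_cast
    refine Finset.sum_congr rfl fun m hm => ?_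
    rw [hz' m hm]
  rw [h2]
  refine Submodule.sum_mem _ fun m hm => Submodule.smul_mem _ _ (Submodule.subset_span (hc hm))

theorem span_stable (M : Set (EE U)) (L : EE U →ₗ[ℂ] EE U)
    (h : ∀ x ∈ M, L x ∈ Submodule.span ℂ M) :
    ∀ x ∈ Submodule.span ℂ M, L x ∈ Submodule.span ℂ M := by
  intro x hx
  have : Submodule.span ℂ M ≤ (Submodule.span ℂ M).comap L :=
    Submodule.span_le.2 fun m hm => h m hm
  exact this hx

/-- the projection to the indices of signature `t` -/
theorem stable_sig (A : Fin 2 → Finset U) (N : Submodule ℂ (EE U))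
    (h : ∀ s : U, ∀ x ∈ N, prj (fun i u => s⁻¹ * u ∈ A i) x ∈ N) (t : Finset U) (x : EE U)
    (hx : x ∈ N) : prj (fun i u => ∀ s : U, s ∈ t ↔ s⁻¹ * u ∈ A i) x ∈ N := by
  classical
  have key : ∀ S : Finset U, prj (fun i u => ∀ s ∈ S, (s ∈ t ↔ s⁻¹ * u ∈ A i)) x ∈ N := by
    intro S
    induction S using Finset.induction_on with
    | empty =>
      have : prj (fun i u => ∀ s ∈ (∅ : Finset U), (s ∈ t ↔ s⁻¹ * u ∈ A i)) x = x := by
        funext i u
        rw [prj_apply, if_pos]
        intro s hs
        exact absurd hs (Finset.notMem_empty s)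
      rw [this]
      exact hx
    | insert a S ha ih =>
      have h1 := h a _ ih
      by_cases hat : a ∈ t
      · have : prj (fun i u => ∀ s ∈ insert a S, (s ∈ t ↔ s⁻¹ * u ∈ A i)) x =
            prj (fun i u => a⁻¹ * u ∈ A i)
              (prj (fun i u => ∀ s ∈ S, (s ∈ t ↔ s⁻¹ * u ∈ A i)) x) := by
          funext i u
          rw [prj_apply, prj_apply, prj_apply]
          by_cases h2 : a⁻¹ * u ∈ A i
          · rw [if_pos h2]
            by_cases h3 : ∀ s ∈ S, (s ∈ t ↔ s⁻¹ * u ∈ A i)
            · rw [if_pos h3, if_pos]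
              intro s hs
              rcases Finset.mem_insert.1 hs with rfl | hs
              · exact ⟨fun _ => h2, fun _ => hat⟩
              · exact h3 s hs
            · rw [if_neg h3, if_neg]
              intro h4
              exact h3 fun s hs => h4 s (Finset.mem_insert_of_mem hs)
          · rw [if_neg h2, if_neg]
            intro h4
            exact h2 ((h4 a (Finset.mem_insert_self _ _)).1 hat)
        rw [this]
        exact h1
      · have : prj (fun i u => ∀ s ∈ insert a S, (s ∈ t ↔ s⁻¹ * u ∈ A i)) x =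
            prj (fun i u => ∀ s ∈ S, (s ∈ t ↔ s⁻¹ * u ∈ A i)) x -
            prj (fun i u => a⁻¹ * u ∈ A i)
              (prj (fun i u => ∀ s ∈ S, (s ∈ t ↔ s⁻¹ * u ∈ A i)) x) := by
          funext i u
          rw [Pi.sub_apply, Pi.sub_apply, prj_apply, prj_apply, prj_apply]
          by_cases h2 : a⁻¹ * u ∈ A i
          · rw [if_pos h2, prj_apply, sub_self, if_neg]
            intro h4
            exact hat ((h4 a (Finset.mem_insert_self _ _)).2 h2)
          · rw [if_neg h2, sub_zero]
            by_cases h3 : ∀ s ∈ S, (s ∈ t ↔ s⁻¹ * u ∈ A i)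
            · rw [if_pos h3, if_pos]
              intro s hs
              rcases Finset.mem_insert.1 hs with rfl | hs
              · exact ⟨fun h => absurd h hat, fun h => absurd h h2⟩
              · exact h3 s hs
            · rw [if_neg h3, if_neg]
              intro h4
              exact h3 fun s hs => h4 s (Finset.mem_insert_of_mem hs)
        rw [this]
        exact Submodule.sub_mem _ ih h1
  have h1 := key Finset.univ
  have : prj (fun i u => ∀ s ∈ (Finset.univ : Finset U), (s ∈ t ↔ s⁻¹ * u ∈ A i)) x =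
      prj (fun i u => ∀ s : U, s ∈ t ↔ s⁻¹ * u ∈ A i) x := by
    funext i u
    rw [prj_apply, prj_apply]
    simp only [Finset.mem_univ, forall_true_left]
  rw [← this]
  exact h1

/-- coordinates which determine a subspace -/
theorem exists_coord (Z : Submodule ℂ (U → ℂ)) :
    ∃ J : Finset U, J.card = Module.finrank ℂ Z ∧ ∀ a : U → ℂ, ∃ z ∈ Z, ∀ j ∈ J, z j = a j := by
  classical
  -- the coordinate functionals on `Z`
  let φ : U → Module.Dual ℂ Z := fun u => (LinearMap.proj u).comp Z.subtype
  obtain ⟨J, hJ⟩ : ∃ J : Set U, LinearIndependent ℂ (fun u : J => φ u) ∧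
      Submodule.span ℂ (φ '' J) = Submodule.span ℂ (Set.range φ) := by
    obtain ⟨κ, a, ha, hs, hi⟩ := exists_linearIndependent' ℂ φ
    refine ⟨Set.range a, ?_, ?_⟩
    · have h2 : (fun u : Set.range a => φ u) ∘ (Equiv.ofInjective a ha) = φ ∘ a := by
        funext k
        rfl
      rw [← linearIndependent_equiv' (Equiv.ofInjective a ha) h2]
      exact hi
    · rw [← hs, Set.range_comp]
  obtain ⟨hi, hs⟩ := hJ
  have htop : Submodule.span ℂ (Set.range φ) = ⊤ := by
    rw [← Subspace.dualCoannihilator_dualAnnihilator_eq (W := Submodule.span ℂ (Set.range φ))]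
    have : (Submodule.span ℂ (Set.range φ)).dualCoannihilator = ⊥ := by
      rw [eq_bot_iff]
      intro z hz
      rw [Submodule.mem_dualCoannihilator] at hz
      rw [Submodule.mem_bot]
      apply Subtype.ext
      funext u
      exact hz (φ u) (Submodule.subset_span ⟨u, rfl⟩)
    rw [this, Submodule.dualAnnihilator_bot]
  rw [htop] at hs
  have hfin : Fintype J := Fintype.ofFinite J
  have hcard : Fintype.card J = Module.finrank ℂ Z := by
    have h1 := finrank_span_eq_card hi
    have h2 : Set.range (fun u : J => φ u) = φ '' J := by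
      rw [Set.image_eq_range]
    rw [h2, hs, finrank_top, Subspace.dual_finrank_eq] at h1
    exact h1.symm
  refine ⟨J.toFinset, ?_, ?_⟩
  · rw [Set.toFinset_card, hcard]
  · intro a
    -- the map to `C^J`
    let F : Z →ₗ[ℂ] (J → ℂ) := LinearMap.pi fun j => φ j
    have hinj : Function.Injective F := by
      rw [← LinearMap.ker_eq_bot, eq_bot_iff]
      intro z hz
      rw [LinearMap.mem_ker] at hz
      rw [Submodule.mem_bot]
      have h3 : ∀ ψ : Module.Dual ℂ Z, ψ z = 0 := by
        intro ψ
        have h4 : ψ ∈ Submodule.span ℂ (φ '' J) := by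
          rw [hs]
          exact Submodule.mem_top
        refine Submodule.span_induction (p := fun ψ _ => ψ z = 0) ?_ ?_ ?_ ?_ h4
        · rintro _ ⟨u, hu, rfl⟩
          exact congrFun hz ⟨u, hu⟩
        · rfl
        · intro x y _ _ hx hy
          rw [LinearMap.add_apply, hx, hy, add_zero]
        · intro c x _ hx
          rw [LinearMap.smul_apply, hx, smul_zero]
      exact (Module.forall_dual_apply_eq_zero_iff ℂ z).1 h3
    have hsur : Function.Surjective F := by
      rw [LinearMap.injective_iff_surjective_of_finrank_eq_finrank] at hinj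
      · exact hinj
      · rw [Module.finrank_fintype_fun_eq_card, hcard]
    obtain ⟨z, hz⟩ := hsur fun j => a j
    refine ⟨z, z.2, fun j hj => ?_⟩
    exact congrFun hz ⟨j, Set.mem_toFinset.1 hj⟩

/-- SHEARER: `2 dim Z ≤ dim N`. -/
theorem shearer (A : Fin 2 → Finset U) (hA : A 0 ≠ A 1) (N : Submodule ℂ (EE U))
    (h : ∀ s : U, ∀ x ∈ N, prj (fun i u => s⁻¹ * u ∈ A i) x ∈ N) (X : Fin 2 → U → ℂ)
    (hX : ∀ i u, X i u ≠ 0) (Z : Submodule ℂ (U → ℂ))
    (hZ : ∀ z ∈ Z, (fun i u => X i u * z u : EE U) ∈ N) :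
    2 * Module.finrank ℂ Z ≤ Module.finrank ℂ N := by
  classical
  obtain ⟨J, hJ, hJ'⟩ := exists_coord Z
  -- signatures
  let sg : Fin 2 → U → Finset U := fun i u => Finset.univ.filter fun s => s⁻¹ * u ∈ A i
  have hsg : ∀ i u, ∀ s : U, s ∈ sg i u ↔ s⁻¹ * u ∈ A i := by
    intro i u s
    simp [sg]
  have hne : ∀ u, sg 0 u ≠ sg 1 u := by
    intro u he
    apply hA
    ext v
    have h1 := hsg 0 u (u * v⁻¹)
    have h2 := hsg 1 u (u * v⁻¹)
    rw [he] at h1
    rw [mul_inv_rev, inv_inv, mul_assoc, inv_mul_cancel, mul_one] at h1 h2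
    exact h1.symm.trans h2
  let θ : N →ₗ[ℂ] (Fin 2 × J → ℂ) :=
    { toFun := fun x p => (x : EE U) p.1 p.2
      map_add' := fun x y => rfl
      map_smul' := fun c x => rfl }
  have hsur : Function.Surjective θ := by
    intro a
    have h1 : ∀ t : Finset U, ∃ z ∈ Z, ∀ j ∈ J, z j =
        if hj : j ∈ J then
          (if sg 0 j = t then a (0, ⟨j, hj⟩) / X 0 j else
            if sg 1 j = t then a (1, ⟨j, hj⟩) / X 1 j else 0) else 0 := fun t => hJ' _
    choose z hz hz' using h1
    let y : EE U := ∑ t : Finset U, prj (fun i u => ∀ s : U, s ∈ t ↔ s⁻¹ * u ∈ A i)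
      (fun i u => X i u * z t u)
    have hy : y ∈ N := Submodule.sum_mem _ fun t _ => stable_sig A N h t _ (hZ _ (hz t))
    refine ⟨⟨y, hy⟩, ?_⟩
    funext p
    obtain ⟨i, j, hj⟩ := p
    change y i j = _
    have h2 : y i j = X i j * z (sg i j) j := by
      simp only [y]
      rw [Finset.sum_apply, Finset.sum_apply, Finset.sum_eq_single (sg i j)]
      · rw [prj_apply, if_pos]
        exact hsg i j
      · intro t _ ht
        rw [prj_apply, if_neg]
        intro h3
        apply ht
        ext s
        rw [h3 s, hsg]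
      · intro h3
        exact absurd (Finset.mem_univ _) h3
    rw [h2, hz' _ j hj, dif_pos hj]
    fin_cases i
    · simp only [Fin.zero_eta]
      rw [if_pos trivial]
      exact mul_div_cancel₀ _ (hX 0 j)
    · simp only [Fin.mk_one]
      rw [if_neg (hne j), if_pos trivial]
      exact mul_div_cancel₀ _ (hX 1 j)
  have h3 := LinearMap.finrank_le_finrank_of_surjective hsur
  rw [Module.finrank_fintype_fun_eq_card, Fintype.card_prod, Fintype.card_fin,
    Fintype.card_coe, hJ] at h3
  exact h3

end

end Pool.Agent.Helper16.LV
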