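import Pool.Agent.Helper16.LV.A

/-!
PROJECT LT2 (MP_274814_nt), the zero estimate for two arbitrary distinct CM types: the counting.
`n` is the complex conjugation in `U`, `A 0`, `A 1` are half systems, `h` is a complex subspace
which is the sum of the real span of the rational real vectors in it and of its part `h ∩ E_v`.
-/

namespace Pool.Agent.Helper16.LV

open Finset

noncomputable section

set_option linter.unusedSectionVars false

variable {U : Type} [Fintype U] [DecidableEq U] [Group U]

/-- real vectors -/
def IsRl (n : U) (x : EE U) : Prop := ∀ i u, x i (n * u) = (starRingEnd ℂ) (x i u)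

/-- the vector part -/
def Ev (A : Fin 2 → Finset U) : Submodule ℂ (EE U) where
  carrier := {x | ∀ i, ∀ u ∈ A i, x i u = 0}
  add_mem' := by
    intro x y hx hy i u hu
    rw [Pi.add_apply, Pi.add_apply, hx i u hu, hy i u hu, add_zero]
  zero_mem' := fun i u _ => rfl
  smul_mem' := by
    intro c x hx i u hu
    rw [Pi.smul_apply, Pi.smul_apply, hx i u hu, smul_zero]

theorem mem_Ev {A : Fin 2 → Finset U} {x : EE U} : x ∈ Ev A ↔ ∀ i, ∀ u ∈ A i, x i u = 0 :=
  Iff.rfl

theorem rl_span (n : U) (M : Set (EE U)) (hM : ∀ x ∈ M, IsRl n x) (y : EE U)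
    (hy : y ∈ Submodule.span ℝ M) : IsRl n y := by
  refine Submodule.span_induction (p := fun y _ => IsRl n y) hM ?_ ?_ ?_ hy
  · intro i u
    simp
  · intro x y _ _ hx hy i u
    rw [Pi.add_apply, Pi.add_apply, Pi.add_apply, hx, hy, map_add]
  · intro c x _ hx i u
    rw [Pi.smul_apply, Pi.smul_apply, Pi.smul_apply, hx, Complex.real_smul,
      Complex.real_smul, map_mul, Complex.conj_ofReal]

theorem span_RC (M : Set (EE U)) (y : EE U) (hy : y ∈ Submodule.span ℝ M) :
    y ∈ Submodule.span ℂ M :=
  Submodule.span_le_restrictScalars ℝ ℂ M hy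

/-- real independent real vectors are independent -/
theorem indep_RC (n : U) {κ : Type} [Fintype κ] (b : κ → EE U) (hb : ∀ k, IsRl n (b k))
    (hi : LinearIndependent ℝ b) : LinearIndependent ℂ b := by
  rw [Fintype.linearIndependent_iff] at hi ⊢
  intro g hg
  have h1 : ∀ i u, ∑ k, g k * b k i u = 0 := by
    intro i u
    have := congrFun (congrFun hg i) u
    rw [Finset.sum_apply, Finset.sum_apply] at this
    exact this
  have h2 : ∀ i u, ∑ k, (starRingEnd ℂ) (g k) * b k i u = 0 := by
    intro i u
    have h3 := congrArg (starRingEnd ℂ) (h1 i (n⁻¹ * u))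
    rw [map_sum, map_zero] at h3
    rw [← h3]
    refine Finset.sum_congr rfl fun k _ => ?_
    rw [map_mul, ← hb k, mul_inv_cancel_left]
  have hre : ∀ k, (g k).re = 0 := by
    refine hi (fun k => (g k).re) ?_
    funext i u
    rw [Finset.sum_apply, Finset.sum_apply]
    have h3 : ∀ k, ((g k).re • b k : EE U) i u =
        (g k * b k i u + (starRingEnd ℂ) (g k) * b k i u) / 2 := by
      intro k
      rw [Pi.smul_apply, Pi.smul_apply, Complex.real_smul, Complex.re_eq_add_conj]
      ring
    rw [Finset.sum_congr rfl fun k _ => h3 k, ← Finset.sum_div, Finset.sum_add_distrib, h1, h2]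
    simp
  have him : ∀ k, (g k).im = 0 := by
    refine hi (fun k => (g k).im) ?_
    funext i u
    rw [Finset.sum_apply, Finset.sum_apply]
    have h3 : ∀ k, ((g k).im • b k : EE U) i u =
        (g k * b k i u - (starRingEnd ℂ) (g k) * b k i u) / (2 * Complex.I) := by
      intro k
      rw [Pi.smul_apply, Pi.smul_apply, Complex.real_smul, Complex.im_eq_sub_conj]
      ring
    rw [Finset.sum_congr rfl fun k _ => h3 k, ← Finset.sum_div, Finset.sum_sub_distrib, h1, h2]
    simp
  intro k
  exact Complex.ext (hre k) (him k)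

theorem finrank_RC (n : U) (M : Set (EE U)) (hM : ∀ x ∈ M, IsRl n x) :
    Module.finrank ℝ (Submodule.span ℝ M) ≤ Module.finrank ℂ (Submodule.span ℂ M) := by
  let b := Module.finBasis ℝ (Submodule.span ℝ M)
  let c : Fin (Module.finrank ℝ (Submodule.span ℝ M)) → EE U := fun k => (b k : EE U)
  have h1 : LinearIndependent ℝ c :=
    b.linearIndependent.map' (Submodule.span ℝ M).subtype (Submodule.ker_subtype _)
  have h2 : LinearIndependent ℂ c := indep_RC n c (fun k => rl_span n M hM _ (b k).2) h1
  let d : Fin (Module.finrank ℝ (Submodule.span ℝ M)) → Submodule.span ℂ M :=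
    fun k => ⟨c k, span_RC M _ (b k).2⟩
  have h3 : LinearIndependent ℂ d := by
    apply LinearIndependent.of_comp (Submodule.span ℂ M).subtype
    exact h2
  have h4 := h3.fintype_card_le_finrank
  rwa [Fintype.card_fin] at h4

variable (n : U) (A : Fin 2 → Finset U) (M : Set (EE U)) (h : Submodule ℂ (EE U))

/-- Hodge: the projection to the type preserves the complex span. -/
theorem hodge (hA : ∀ i u, u ∈ A i ↔ n * u ∉ A i) (hM : ∀ x ∈ M, IsRl n x)
    (hMh : ∀ x ∈ M, x ∈ h)
    (hS : ∀ x ∈ h, ∃ y ∈ Submodule.span ℝ M, x - y ∈ Ev A) :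
    ∀ x ∈ M, prj (fun i u => u ∈ A i) x ∈ Submodule.span ℂ M := by
  intro x hx
  obtain ⟨y, hy, hxy⟩ := hS (Complex.I • x) (Submodule.smul_mem _ _ (hMh x hx))
  have h1 : ∀ i, ∀ u ∈ A i, y i u = Complex.I * x i u := by
    intro i u hu
    have := hxy i u hu
    rw [Pi.sub_apply, Pi.sub_apply, sub_eq_zero] at this
    rw [← this]
    rfl
  have h2 := rl_span n M hM y hy
  have h3 : prj (fun i u => u ∈ A i) x = (1 / 2 : ℂ) • x + (1 / (2 * Complex.I)) • y := by
    funext i u
    rw [prj_apply]
    change _ = (1 / 2 : ℂ) * x i u + (1 / (2 * Complex.I)) * y i u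
    have hI : Complex.I ≠ 0 := Complex.I_ne_zero
    by_cases hu : u ∈ A i
    · rw [if_pos hu, h1 i u hu]
      field_simp
      ring
    · rw [if_neg hu]
      have h4 : n * u ∈ A i := by
        by_contra h5
        exact hu ((hA i u).2 h5)
      have h5 := h1 i _ h4
      rw [h2 i u, hM x hx i u] at h5
      have h6 := congrArg (starRingEnd ℂ) h5
      rw [Complex.conj_conj, map_mul, Complex.conj_conj, Complex.conj_I] at h6
      rw [h6]
      field_simp
      ring
  rw [h3]
  exact Submodule.add_mem _ (Submodule.smul_mem _ _ (Submodule.subset_span hx))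
    (Submodule.smul_mem _ _ (span_RC M y hy))

/-- `2 dim h ≤ 2 dim (h ∩ E_v) + dim M_C` -/
theorem dim_h (hM : ∀ x ∈ M, IsRl n x) (hMh : ∀ x ∈ M, x ∈ h)
    (hS : ∀ x ∈ h, ∃ y ∈ Submodule.span ℝ M, x - y ∈ Ev A) :
    2 * Module.finrank ℂ h ≤
      2 * Module.finrank ℂ (h ⊓ Ev A : Submodule ℂ (EE U)) +
        Module.finrank ℂ (Submodule.span ℂ M) := by
  have h1 : h.restrictScalars ℝ ≤
      Submodule.span ℝ M ⊔ (h ⊓ Ev A : Submodule ℂ (EE U)).restrictScalars ℝ := by
    intro x hx
    obtain ⟨y, hy, hxy⟩ := hS x hx
    have h2 : x = y + (x - y) := by abel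
    rw [h2]
    refine Submodule.add_mem_sup hy ?_
    refine ⟨?_, hxy⟩
    refine h.sub_mem hx ?_
    have h3 : Submodule.span ℝ M ≤ h.restrictScalars ℝ := Submodule.span_le.2 hMh
    exact h3 hy
  have h2 : Module.finrank ℝ (h.restrictScalars ℝ) ≤
      Module.finrank ℝ (Submodule.span ℝ M) +
        Module.finrank ℝ ((h ⊓ Ev A : Submodule ℂ (EE U)).restrictScalars ℝ) := by
    refine (Submodule.finrank_mono h1).trans ?_
    exact Submodule.finrank_add_le_finrank_add_finrank _ _
  have h3 : Module.finrank ℝ (h.restrictScalars ℝ) = 2 * Module.finrank ℂ h :=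
    finrank_real_of_complex h
  have h4 : Module.finrank ℝ ((h ⊓ Ev A : Submodule ℂ (EE U)).restrictScalars ℝ) =
      2 * Module.finrank ℂ (h ⊓ Ev A : Submodule ℂ (EE U)) :=
    finrank_real_of_complex (h ⊓ Ev A : Submodule ℂ (EE U))
  have h5 := finrank_RC n M hM
  omega

/-- the slopes -/
def sl (X : Fin 2 → U → ℂ) : (U → ℂ) →ₗ[ℂ] EE U where
  toFun z i u := X i u * z u
  map_add' x y := by
    funext i u
    simp [mul_add]
  map_smul' c x := by
    funext i u
    simp [mul_left_comm]

theorem sl_apply (X : Fin 2 → U → ℂ) (z : U → ℂ) (i : Fin 2) (u : U) :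
    sl X z i u = X i u * z u := rfl

/-- MAIN COUNT: `dim (W ∩ h) ≤ dim (h ∩ E_v)`, and `W ≤ h` only if `h = E`. -/
theorem count (K : Subfield ℂ) (σ : U → K →+* K) (hA : ∀ i u, u ∈ A i ↔ n * u ∉ A i)
    (hne : A 0 ≠ A 1) (hr : ∀ x ∈ M, IsRat K σ x) (hM : ∀ x ∈ M, IsRl n x)
    (hMh : ∀ x ∈ M, x ∈ h)
    (hS : ∀ x ∈ h, ∃ y ∈ Submodule.span ℝ M, x - y ∈ Ev A)
    (X : Fin 2 → U → ℂ) (hX : ∀ i u, X i u ≠ 0) :
    Module.finrank ℂ (LinearMap.range (sl X) ⊓ h : Submodule ℂ (EE U)) ≤
      Module.finrank ℂ (h ⊓ Ev A : Submodule ℂ (EE U)) ∧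
    (LinearMap.range (sl X) ≤ h → h = ⊤) := by
  classical
  set N := Submodule.span ℂ M with hN
  have hNh : N ≤ h := Submodule.span_le.2 hMh
  have hP := hodge n A M h hA hM hMh hS
  have hst : ∀ s : U, ∀ x ∈ N, prj (fun i u => s⁻¹ * u ∈ A i) x ∈ N := fun s =>
    span_stable M _ (gal K σ A M hr hP s)
  have hinj : Function.Injective (sl X) := by
    intro a b hab
    funext u
    have := congrFun (congrFun hab 0) u
    rw [sl_apply, sl_apply] at this
    exact mul_left_cancel₀ (hX 0 u) this
  constructor
  · have h1 : 2 * Module.finrank ℂ (N.comap (sl X)) ≤ Module.finrank ℂ N :=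
      shearer A hne N hst X hX _ fun z hz => hz
    have h2 : Module.finrank ℂ (N.comap (sl X)) =
        Module.finrank ℂ (LinearMap.range (sl X) ⊓ N : Submodule ℂ (EE U)) := by
      rw [← Submodule.map_comap_eq]
      exact (LinearEquiv.finrank_eq (Submodule.equivMapOfInjective (sl X) hinj _))
    have h3 := Submodule.finrank_sup_add_finrank_inf_eq
      (LinearMap.range (sl X) ⊓ h : Submodule ℂ (EE U)) N
    have h4 : (LinearMap.range (sl X) ⊓ h ⊓ N : Submodule ℂ (EE U)) =
        LinearMap.range (sl X) ⊓ N := by
      rw [inf_assoc, inf_eq_right.2 hNh]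
    have h5 : (LinearMap.range (sl X) ⊓ h ⊔ N : Submodule ℂ (EE U)) ≤ h :=
      sup_le inf_le_right hNh
    have h6 := Submodule.finrank_mono h5
    have h7 := dim_h n A M h hM hMh hS
    rw [h4] at h3
    rw [← hN] at h7
    omega
  · intro hW
    -- unit vectors
    let e : Fin 2 → U → EE U := fun i u => Pi.single i (Pi.single u 1)
    have he : ∀ i u j v, e i u j v = if j = i ∧ v = u then 1 else 0 := by
      intro i u j v
      by_cases hj : j = i
      · subst hj
        by_cases hv : v = u
        · subst hv
          simp [e]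
        · simp [e, hv]
      · simp [e, hj]
    -- unit vectors of the type
    have h1 : ∀ i, ∀ v ∈ A i, e i v ∈ N := by
      intro i v hv
      have h2 : sl X (Pi.single v 1) ∈ h := hW ⟨_, rfl⟩
      obtain ⟨y, hy, hxy⟩ := hS _ h2
      have h3 : prj (fun i u => u ∈ A i) (sl X (Pi.single v 1)) ∈ N := by
        have h4 : prj (fun i u => u ∈ A i) (sl X (Pi.single v 1)) =
            prj (fun i u => u ∈ A i) y := by
          funext j u
          rw [prj_apply, prj_apply]
          by_cases hu : u ∈ A j
          · rw [if_pos hu, if_pos hu]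
            have := hxy j u hu
            rw [Pi.sub_apply, Pi.sub_apply, sub_eq_zero] at this
            exact this
          · rw [if_neg hu, if_neg hu]
        rw [h4]
        exact span_stable M _ hP _ (span_RC M y hy)
      -- the signature of `(i, v)`
      let t : Finset U := Finset.univ.filter fun s => s⁻¹ * v ∈ A i
      have ht : ∀ s, s ∈ t ↔ s⁻¹ * v ∈ A i := fun s => by simp [t]
      have h5 := stable_sig A N hst t _ h3
      have h6 : prj (fun i u => ∀ s : U, s ∈ t ↔ s⁻¹ * u ∈ A i)
          (prj (fun i u => u ∈ A i) (sl X (Pi.single v 1))) = X i v • e i v := by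
        funext j u
        rw [prj_apply, prj_apply, sl_apply, Pi.smul_apply, Pi.smul_apply, he, smul_eq_mul]
        by_cases hu : u = v
        · subst hu
          by_cases hj : j = i
          · subst hj
            rw [if_pos ht, if_pos hv, if_pos ⟨rfl, rfl⟩, Pi.single_eq_same]
          · rw [if_neg, if_neg]
            · simp
            · intro h7
              exact hj h7.1
            · intro h7
              apply hne
              have h8 : ∀ w, w ∈ A i ↔ w ∈ A j := by
                intro w
                have h9 := ht (u * w⁻¹)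
                have h10 := h7 (u * w⁻¹)
                rw [mul_inv_rev, inv_inv, mul_assoc, inv_mul_cancel, mul_one] at h9 h10
                exact h9.symm.trans h10
              have h9 : A i = A j := Finset.ext h8
              fin_cases i <;> fin_cases j
              · exact absurd rfl hj
              · exact h9
              · exact h9.symm
              · exact absurd rfl hj
        · have h7 : (Pi.single v (1 : ℂ) : U → ℂ) u = 0 := by
            rw [Pi.single_eq_of_ne hu]
          rw [h7]
          simp [hu]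
      rw [h6] at h5
      have h7 := N.smul_mem (X i v)⁻¹ h5
      rwa [smul_smul, inv_mul_cancel₀ (hX i v), one_smul] at h7
    -- `N` is stable under conjugation
    have h2 : ∀ x ∈ N, (fun i u => (starRingEnd ℂ) (x i (n⁻¹ * u)) : EE U) ∈ N := by
      intro x hx
      refine Submodule.span_induction
        (p := fun x _ => (fun i u => (starRingEnd ℂ) (x i (n⁻¹ * u)) : EE U) ∈ N)
        ?_ ?_ ?_ ?_ hx
      · intro x hx
        have h3 : (fun i u => (starRingEnd ℂ) (x i (n⁻¹ * u)) : EE U) = x := by
          funext i u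
          rw [← hM x hx, mul_inv_cancel_left]
        rw [h3]
        exact Submodule.subset_span hx
      · have h3 : (fun i u => (starRingEnd ℂ) ((0 : EE U) i (n⁻¹ * u)) : EE U) = 0 := by
          funext i u
          simp
        rw [h3]
        exact N.zero_mem
      · intro x y _ _ hx hy
        have h3 : (fun i u => (starRingEnd ℂ) ((x + y) i (n⁻¹ * u)) : EE U) =
            (fun i u => (starRingEnd ℂ) (x i (n⁻¹ * u)) : EE U) +
            (fun i u => (starRingEnd ℂ) (y i (n⁻¹ * u)) : EE U) := by
          funext i u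
          simp
        rw [h3]
        exact N.add_mem hx hy
      · intro c x _ hx
        have h3 : (fun i u => (starRingEnd ℂ) ((c • x) i (n⁻¹ * u)) : EE U) =
            (starRingEnd ℂ) c • (fun i u => (starRingEnd ℂ) (x i (n⁻¹ * u)) : EE U) := by
          funext i u
          simp
        rw [h3]
        exact N.smul_mem _ hx
    have h3 : ∀ i v, e i v ∈ N := by
      intro i v
      by_cases hv : v ∈ A i
      · exact h1 i v hv
      · have h4 : n * v ∈ A i := by
          by_contra h5
          exact hv ((hA i v).2 h5)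
        -- `n * (n * v) ∉ A i`, and `v = n⁻¹ * (n * v)`
        have h5 : n⁻¹ * v ∈ A i := by
          by_contra h6
          have h7 := (hA i (n⁻¹ * v)).not.1 h6
          rw [not_not, mul_inv_cancel_left] at h7
          exact hv h7
        have h6 := h2 _ (h1 i _ h5)
        have h7 : (fun j u => (starRingEnd ℂ) (e i (n⁻¹ * v) j (n⁻¹ * u)) : EE U) = e i v := by
          funext j u
          rw [he, he]
          by_cases hj : j = i
          · by_cases hu : u = v
            · subst hu
              simp [hj]
            · rw [if_neg, if_neg, map_zero]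
              · exact fun h8 => hu h8.2
              · exact fun h8 => hu (mul_left_cancel h8.2)
          · rw [if_neg, if_neg, map_zero]
            · exact fun h8 => hj h8.1
            · exact fun h8 => hj h8.1
        rw [h7] at h6
        exact h6
    rw [eq_top_iff]
    intro x _
    have h4 : x = ∑ i, ∑ u, x i u • e i u := by
      funext j v
      rw [Finset.sum_apply, Finset.sum_apply, Finset.sum_eq_single j]
      · rw [Finset.sum_apply, Finset.sum_apply, Finset.sum_eq_single v]
        · rw [Pi.smul_apply, Pi.smul_apply, he, if_pos ⟨rfl, rfl⟩, smul_eq_mul, mul_one]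
        · intro u _ hu
          rw [Pi.smul_apply, Pi.smul_apply, he, if_neg, smul_zero]
          exact fun h5 => hu h5.2.symm
        · intro h5
          exact absurd (Finset.mem_univ _) h5
      · intro i _ hi
        rw [Finset.sum_apply, Finset.sum_apply]
        refine Finset.sum_eq_zero fun u _ => ?_
        rw [Pi.smul_apply, Pi.smul_apply, he, if_neg, smul_zero]
        exact fun h5 => hi h5.1.symm
      · intro h5
        exact absurd (Finset.mem_univ _) h5
    rw [h4]
    refine h.sum_mem fun i _ => h.sum_mem fun u _ => h.smul_mem _ (hNh (h3 i u))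

end

end Pool.Agent.Helper16.LV
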