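import Pool.Agent.Helper16.LV.B

/-!
PROJECT LT2 (MP_274814_nt): semistability of the subspace `W_X`, in the format of
`Pool.Agent.Helper63.LU.Z2_semi`, for two arbitrary distinct CM types.
-/

namespace Pool.Agent.Helper16.LV

open Finset

noncomputable section

set_option linter.unusedSectionVars false

variable {U : Type} [Fintype U] [DecidableEq U] [Group U] {ι : Type} [Fintype ι]

/-- the subspace `{(X_k z_(u_k)), (Y_k z_(n u_k))}` as the range of a map -/
def wm (n : U) (pl : ι → Fin 2 × U) (X Y : ι → ℂ) : (U → ℂ) →ₗ[ℂ] (ι ⊕ ι → ℂ) where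
  toFun z := Sum.elim (fun k => X k * z (pl k).2) (fun k => Y k * z (n * (pl k).2))
  map_add' x y := by
    funext k
    rcases k with k | k <;> simp [mul_add]
  map_smul' c x := by
    funext k
    rcases k with k | k <;> simp [mul_left_comm]

theorem wm_inl (n : U) (pl : ι → Fin 2 × U) (X Y : ι → ℂ) (z : U → ℂ) (k : ι) :
    wm n pl X Y z (Sum.inl k) = X k * z (pl k).2 := rfl

theorem wm_inr (n : U) (pl : ι → Fin 2 × U) (X Y : ι → ℂ) (z : U → ℂ) (k : ι) :
    wm n pl X Y z (Sum.inr k) = Y k * z (n * (pl k).2) := rfl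

/-- the scaling map -/
def ps (n : U) (pl : ι → Fin 2 × U) (ρ κ : ι → ℂ) : EE U →ₗ[ℂ] (ι ⊕ ι → ℂ) where
  toFun x := Sum.elim (fun k => ρ k * x (pl k).1 (pl k).2)
    (fun k => κ k * x (pl k).1 (n * (pl k).2))
  map_add' x y := by
    funext k
    rcases k with k | k <;> simp [mul_add]
  map_smul' c x := by
    funext k
    rcases k with k | k <;> simp [mul_left_comm]

theorem ps_inl (n : U) (pl : ι → Fin 2 × U) (ρ κ : ι → ℂ) (x : EE U) (k : ι) :
    ps n pl ρ κ x (Sum.inl k) = ρ k * x (pl k).1 (pl k).2 := rfl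

theorem ps_inr (n : U) (pl : ι → Fin 2 × U) (ρ κ : ι → ℂ) (x : EE U) (k : ι) :
    ps n pl ρ κ x (Sum.inr k) = κ k * x (pl k).1 (n * (pl k).2) := rfl

variable {n : U} {Φ : Fin 2 → Finset U} {pl : ι → Fin 2 × U}

theorem card_half (hn : n * n = 1) (hΦ : ∀ i u, u ∈ Φ i ↔ n * u ∉ Φ i) (i : Fin 2) :
    2 * (Φ i).card = Fintype.card U := by
  have h1 : (Finset.univ \ Φ i).card = (Φ i).card := by
    refine Finset.card_bij' (fun u _ => n * u) (fun u _ => n * u) ?_ ?_ ?_ ?_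
    · intro u hu
      rw [Finset.mem_sdiff] at hu
      by_contra h
      exact hu.2 ((hΦ i u).2 h)
    · intro u hu
      rw [Finset.mem_sdiff]
      exact ⟨Finset.mem_univ _, (hΦ i u).1 hu⟩
    · intro u _
      rw [← mul_assoc, hn, one_mul]
    · intro u _
      rw [← mul_assoc, hn, one_mul]
  have h2 := Finset.card_sdiff_add_card_eq_card (Finset.subset_univ (Φ i))
  rw [h1, Finset.card_univ] at h2
  omega

theorem card_io (hn : n * n = 1) (hΦ : ∀ i u, u ∈ Φ i ↔ n * u ∉ Φ i)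
    (hpl : Function.Injective pl) (hpl' : ∀ i u, u ∈ Φ i ↔ ∃ k, pl k = (i, u)) :
    Fintype.card ι = Fintype.card U := by
  have h1 : (Finset.univ.image pl) = (((Finset.univ : Finset (Fin 2)).sigma Φ).image
      (fun p => (p.1, p.2))) := by
    ext p
    obtain ⟨i, u⟩ := p
    simp only [Finset.mem_image, Finset.mem_univ, true_and, Finset.mem_sigma, Prod.mk.injEq]
    constructor
    · intro h
      exact ⟨⟨i, u⟩, (hpl' i u).2 h, rfl, rfl⟩
    · rintro ⟨p, hp, h1, h2⟩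
      rw [← h1, ← h2]
      exact (hpl' _ _).1 hp
  have h2 : (Finset.univ.image pl).card = Fintype.card ι := by
    rw [Finset.card_image_of_injective _ hpl, Finset.card_univ]
  have h3 : (((Finset.univ : Finset (Fin 2)).sigma Φ).image
      (fun p => (p.1, p.2))).card = Fintype.card U := by
    rw [Finset.card_image_of_injOn, Finset.card_sigma, Fin.sum_univ_two]
    · have h4 := card_half hn hΦ 0
      have h5 := card_half hn hΦ 1
      omega
    · rintro ⟨i, u⟩ _ ⟨j, v⟩ _ h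
      simp only [Prod.mk.injEq] at h
      obtain ⟨rfl, rfl⟩ := h
      rfl
  rw [← h2, h1, h3]

theorem ps_bij (hn : n * n = 1) (hΦ : ∀ i u, u ∈ Φ i ↔ n * u ∉ Φ i)
    (hpl : Function.Injective pl) (hpl' : ∀ i u, u ∈ Φ i ↔ ∃ k, pl k = (i, u))
    (ρ κ : ι → ℂ) (hρ : ∀ k, ρ k ≠ 0) (hκ : ∀ k, κ k ≠ 0) :
    Function.Bijective (ps n pl ρ κ) := by
  have hinj : Function.Injective (ps n pl ρ κ) := by
    rw [← LinearMap.ker_eq_bot, eq_bot_iff]
    intro x hx
    rw [LinearMap.mem_ker] at hx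
    rw [Submodule.mem_bot]
    funext i u
    by_cases hu : u ∈ Φ i
    · obtain ⟨k, hk⟩ := (hpl' i u).1 hu
      have h1 := congrFun hx (Sum.inl k)
      rw [ps_inl, hk] at h1
      exact (mul_eq_zero.1 h1).resolve_left (hρ k)
    · have h2 : n * u ∈ Φ i := by
        by_contra h
        exact hu ((hΦ i u).2 h)
      obtain ⟨k, hk⟩ := (hpl' i _).1 h2
      have h1 := congrFun hx (Sum.inr k)
      rw [ps_inr, hk, ← mul_assoc, hn, one_mul] at h1
      exact (mul_eq_zero.1 h1).resolve_left (hκ k)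
  refine ⟨hinj, ?_⟩
  have h1 : Module.finrank ℂ (EE U) = Module.finrank ℂ (ι ⊕ ι → ℂ) := by
    rw [Module.finrank_fintype_fun_eq_card, Fintype.card_sum, card_io hn hΦ hpl hpl']
    rw [Module.finrank_pi_fintype, Fin.sum_univ_two, Module.finrank_fintype_fun_eq_card]
  exact (LinearMap.injective_iff_surjective_of_finrank_eq_finrank h1).1 hinj

/-- The semistability of `W_X`. -/
theorem semi {A : Type} [AddCommGroup A] (γ : A →+ (ι → ℂ)) (σ : (ι → ℂ) →ₗ[ℝ] (ι → ℂ))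
    (hn : n * n = 1) (hΦ : ∀ i u, u ∈ Φ i ↔ n * u ∉ Φ i) (hne : Φ 0 ≠ Φ 1)
    (K : Subfield ℂ) (τ : U → K →+* K)
    (hpl : Function.Injective pl) (hpl' : ∀ i u, u ∈ Φ i ↔ ∃ k, pl k = (i, u))
    (pt : A → EE U) (hrat : ∀ a, IsRat K τ (pt a)) (hrl : ∀ a, IsRl n (pt a))
    (ρ κ : ι → ℂ) (hρ : ∀ k, ρ k ≠ 0) (hκ : ∀ k, κ k ≠ 0)
    (hγ : ∀ a k, γ a k = ρ k * pt a (pl k).1 (pl k).2)
    (hσ : ∀ a k, σ (γ a) k = κ k * pt a (pl k).1 (n * (pl k).2))
    (X Y : ι → ℂ) (hX : ∀ k, X k ≠ 0) (hY : ∀ k, Y k ≠ 0)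
    (H : Submodule ℂ (ι ⊕ ι → ℂ)) (hH : H ≠ ⊤)
    (hS : ∀ x ∈ H, (fun i => x (Sum.inl i)) ∈ Submodule.span ℝ
      {y : ι → ℂ | ∃ a, y = γ a ∧ Sum.elim (γ a) (σ (γ a)) ∈ H}) :
    ¬ LinearMap.range (wm n pl X Y) ≤ H ∧
      Fintype.card ι + Module.finrank ℂ
        (LinearMap.range (wm n pl X Y) ⊓ H : Submodule ℂ (ι ⊕ ι → ℂ)) ≤
        Module.finrank ℂ (LinearMap.range (wm n pl X Y)) + Module.finrank ℂ
          (H ⊓ LinearMap.ker (LinearMap.funLeft ℂ ℂ (Sum.inl : ι → ι ⊕ ι)) :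
            Submodule ℂ (ι ⊕ ι → ℂ)) := by
  classical
  have hbij := ps_bij hn hΦ hpl hpl' ρ κ hρ hκ
  let e : EE U ≃ₗ[ℂ] (ι ⊕ ι → ℂ) := LinearEquiv.ofBijective _ hbij
  have he : ∀ x, e x = ps n pl ρ κ x := fun x => rfl
  -- the place of a coordinate
  have hplace : ∀ (i : Fin 2) (u : U), ∃ k : ι, (pl k = (i, u) ∧ u ∈ Φ i) ∨
      (pl k = (i, n * u) ∧ u ∉ Φ i) := by
    intro i u
    by_cases hu : u ∈ Φ i
    · obtain ⟨k, hk⟩ := (hpl' i u).1 hu
      exact ⟨k, Or.inl ⟨hk, hu⟩⟩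
    · have h2 : n * u ∈ Φ i := by
        by_contra h
        exact hu ((hΦ i u).2 h)
      obtain ⟨k, hk⟩ := (hpl' i _).1 h2
      exact ⟨k, Or.inr ⟨hk, hu⟩⟩
  choose κp hκp using hplace
  -- the slopes
  let Xs : Fin 2 → U → ℂ := fun i u =>
    if u ∈ Φ i then X (κp i u) / ρ (κp i u) else Y (κp i u) / κ (κp i u)
  have hXs : ∀ i u, Xs i u ≠ 0 := by
    intro i u
    simp only [Xs]
    split_ifs
    · exact div_ne_zero (hX _) (hρ _)
    · exact div_ne_zero (hY _) (hκ _)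
  have hkp : ∀ k, κp (pl k).1 (pl k).2 = k := by
    intro k
    rcases hκp (pl k).1 (pl k).2 with ⟨h1, _⟩ | ⟨_, h2⟩
    · exact hpl h1
    · exact absurd ((hpl' _ _).2 ⟨k, rfl⟩) h2
  have hmem : ∀ k, (pl k).2 ∈ Φ (pl k).1 := fun k => (hpl' _ _).2 ⟨k, rfl⟩
  have hkp2 : ∀ k, κp (pl k).1 (n * (pl k).2) = k := by
    intro k
    rcases hκp (pl k).1 (n * (pl k).2) with ⟨_, h2⟩ | ⟨h1, _⟩
    · exact absurd h2 ((hΦ _ _).1 (hmem k))
    · rw [← mul_assoc, hn, one_mul] at h1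
      exact hpl h1
  have hWe : ∀ z, e (sl Xs z) = wm n pl X Y z := by
    intro z
    rw [he]
    funext k
    rcases k with k | k
    · rw [ps_inl, sl_apply, wm_inl]
      simp only [Xs]
      rw [if_pos (hmem k), hkp]
      field_simp [hρ k]
    · rw [ps_inr, sl_apply, wm_inr]
      simp only [Xs]
      rw [if_neg ((hΦ _ _).1 (hmem k)), hkp2]
      field_simp [hκ k]
  have hrange : LinearMap.range (wm n pl X Y) =
      (LinearMap.range (sl Xs)).map (e : EE U →ₗ[ℂ] (ι ⊕ ι → ℂ)) := by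
    rw [← LinearMap.range_comp]
    congr 1
    refine LinearMap.ext fun z => ?_
    exact (hWe z).symm
  -- the subspace
  let h : Submodule ℂ (EE U) := H.comap (e : EE U →ₗ[ℂ] (ι ⊕ ι → ℂ))
  have hmh : h.map (e : EE U →ₗ[ℂ] (ι ⊕ ι → ℂ)) = H := by
    rw [Submodule.map_comap_eq, LinearMap.range_eq_top.2 e.surjective, top_inf_eq]
  let M : Set (EE U) := {x | ∃ a, x = pt a ∧ x ∈ h}
  have hpe : ∀ a, e (pt a) = Sum.elim (γ a) (σ (γ a)) := by
    intro a
    rw [he]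
    funext k
    rcases k with k | k
    · rw [ps_inl, Sum.elim_inl, hγ]
    · rw [ps_inr, Sum.elim_inr, hσ]
  have hS' : ∀ x ∈ h, ∃ y ∈ Submodule.span ℝ M, x - y ∈ Ev Φ := by
    intro x hx
    have h1 := hS (e x) hx
    -- lift the combination
    have h2 : ∀ w ∈ Submodule.span ℝ
        {y : ι → ℂ | ∃ a, y = γ a ∧ Sum.elim (γ a) (σ (γ a)) ∈ H},
        ∃ y ∈ Submodule.span ℝ M, ∀ k, w k = ρ k * y (pl k).1 (pl k).2 := by
      intro w hw
      refine Submodule.span_induction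
        (p := fun w _ => ∃ y ∈ Submodule.span ℝ M, ∀ k, w k = ρ k * y (pl k).1 (pl k).2)
        ?_ ?_ ?_ ?_ hw
      · rintro w ⟨a, rfl, ha⟩
        refine ⟨pt a, Submodule.subset_span ⟨a, rfl, ?_⟩, hγ a⟩
        change e (pt a) ∈ H
        rw [hpe]
        exact ha
      · exact ⟨0, Submodule.zero_mem _, fun k => by simp⟩
      · rintro w w' _ _ ⟨y, hy, h3⟩ ⟨y', hy', h3'⟩
        refine ⟨y + y', Submodule.add_mem _ hy hy', fun k => ?_⟩
        rw [Pi.add_apply, h3, h3', Pi.add_apply, Pi.add_apply]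
        ring
      · rintro r w _ ⟨y, hy, h3⟩
        refine ⟨r • y, Submodule.smul_mem _ _ hy, fun k => ?_⟩
        rw [Pi.smul_apply, h3, Pi.smul_apply, Pi.smul_apply, Complex.real_smul,
          Complex.real_smul]
        ring
    obtain ⟨y, hy, h3⟩ := h2 _ h1
    refine ⟨y, hy, ?_⟩
    intro i u hu
    obtain ⟨k, hk⟩ := (hpl' i u).1 hu
    have h4 := h3 k
    change ps n pl ρ κ x (Sum.inl k) = _ at h4
    rw [ps_inl, hk] at h4
    have h5 := mul_left_cancel₀ (hρ k) h4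
    rw [Pi.sub_apply, Pi.sub_apply]
    exact sub_eq_zero.2 h5
  have key := count n Φ M h K τ hΦ hne (fun x hx => by
      obtain ⟨a, rfl, _⟩ := hx
      exact hrat a)
    (fun x hx => by
      obtain ⟨a, rfl, _⟩ := hx
      exact hrl a)
    (fun x hx => by
      obtain ⟨a, rfl, h1⟩ := hx
      exact h1) hS' Xs hXs
  have hEv : Ev Φ = (LinearMap.ker (LinearMap.funLeft ℂ ℂ (Sum.inl : ι → ι ⊕ ι))).comap
      (e : EE U →ₗ[ℂ] (ι ⊕ ι → ℂ)) := by
    ext x
    rw [Submodule.mem_comap, LinearMap.mem_ker, mem_Ev]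
    constructor
    · intro h1
      funext k
      change ps n pl ρ κ x (Sum.inl k) = 0
      rw [ps_inl, h1 _ _ (hmem k), mul_zero]
    · intro h1 i u hu
      obtain ⟨k, hk⟩ := (hpl' i u).1 hu
      have h2 : ps n pl ρ κ x (Sum.inl k) = 0 := congrFun h1 k
      rw [ps_inl, hk] at h2
      exact (mul_eq_zero.1 h2).resolve_left (hρ k)
  constructor
  · intro hle
    apply hH
    have h1 : LinearMap.range (sl Xs) ≤ h := by
      rintro _ ⟨z, rfl⟩
      change e (sl Xs z) ∈ H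
      rw [hWe]
      exact hle ⟨z, rfl⟩
    have h2 := key.2 h1
    rw [← hmh, h2, Submodule.map_top, LinearMap.range_eq_top.2 e.surjective]
  · have h1 : (LinearMap.range (wm n pl X Y) ⊓ H : Submodule ℂ (ι ⊕ ι → ℂ)) =
        (LinearMap.range (sl Xs) ⊓ h : Submodule ℂ (EE U)).map
          (e : EE U →ₗ[ℂ] (ι ⊕ ι → ℂ)) := by
      rw [Submodule.map_inf _ e.injective, hmh, hrange]
    have h2 : (H ⊓ LinearMap.ker (LinearMap.funLeft ℂ ℂ (Sum.inl : ι → ι ⊕ ι)) :
        Submodule ℂ (ι ⊕ ι → ℂ)) = (h ⊓ Ev Φ : Submodule ℂ (EE U)).map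
          (e : EE U →ₗ[ℂ] (ι ⊕ ι → ℂ)) := by
      rw [Submodule.map_inf _ e.injective, hmh, hEv, Submodule.map_comap_eq,
        LinearMap.range_eq_top.2 e.surjective, top_inf_eq]
    have h3 : Module.finrank ℂ (LinearMap.range (wm n pl X Y)) = Fintype.card ι := by
      rw [LinearMap.finrank_range_of_inj, Module.finrank_fintype_fun_eq_card,
        card_io hn hΦ hpl hpl']
      intro z z' hz
      have h4 : sl Xs z = sl Xs z' := by
        apply e.injective
        rw [hWe, hWe, hz]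
      funext u
      have h5 := congrFun (congrFun h4 0) u
      rw [sl_apply, sl_apply] at h5
      exact mul_left_cancel₀ (hXs 0 u) h5
    rw [h3, h1, h2, LinearEquiv.finrank_map_eq e, LinearEquiv.finrank_map_eq e]
    have h4 := key.1
    omega

end

end Pool.Agent.Helper16.LV
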