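import Pool.Agent.Helper16.LV.C

/-!
PROJECT LT2 (MP_274814_nt): the cyclotomic input of `semi`.
-/

namespace Pool.Agent.Helper16.LV

open Finset Polynomial IntermediateField

noncomputable section

set_option linter.unusedSectionVars false

variable (q : ℕ) [NeZero q]

/-- `exp (2 pi i / q)` -/
def zq : ℂ := Complex.exp (2 * Real.pi * Complex.I / q)

theorem zq_prim : IsPrimitiveRoot (zq q) q := Complex.isPrimitiveRoot_exp q (NeZero.ne q)

/-- `Q(zeta)` -/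
def Kq : Subfield ℂ := (ℚ⟮zq q⟯).toSubfield

theorem zq_int : IsIntegral ℚ (zq q) :=
  ((zq_prim q).isIntegral (NeZero.pos q)).tower_top

theorem exists_aut (s : (ZMod q)ˣ) :
    ∃ f : ℚ⟮zq q⟯ →+* ℚ⟮zq q⟯, ((f (AdjoinSimple.gen ℚ (zq q)) : ℚ⟮zq q⟯) : ℂ) =
      zq q ^ (s : ZMod q).val := by
  have h1 : (minpoly ℚ (zq q)) = minpoly ℚ (zq q ^ (s : ZMod q).val) := by
    have hp : IsPrimitiveRoot (zq q ^ (s : ZMod q).val) q :=
      (zq_prim q).pow_of_coprime _ (ZMod.val_coe_unit_coprime s)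
    rw [← cyclotomic_eq_minpoly_rat (zq_prim q) (NeZero.pos q),
      ← cyclotomic_eq_minpoly_rat hp (NeZero.pos q)]
  have hg : AdjoinSimple.gen ℚ (zq q) ^ (s : ZMod q).val ∈
      (minpoly ℚ (zq q)).aroots ℚ⟮zq q⟯ := by
    rw [mem_aroots]
    refine ⟨minpoly.ne_zero (zq_int q), ?_⟩
    have h2 : algebraMap ℚ⟮zq q⟯ ℂ (aeval (AdjoinSimple.gen ℚ (zq q) ^ (s : ZMod q).val)
        (minpoly ℚ (zq q))) = 0 := by
      rw [← aeval_algebraMap_apply, map_pow, AdjoinSimple.algebraMap_gen, h1]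
      exact minpoly.aeval _ _
    exact (map_eq_zero _).1 h2
  obtain ⟨φ, hφ⟩ : ∃ φ, φ = (algHomAdjoinIntegralEquiv ℚ (zq_int q)
    (K := ℚ⟮zq q⟯)).symm ⟨_, hg⟩ := ⟨_, rfl⟩
  refine ⟨φ.toRingHom, ?_⟩
  have h3 := algHomAdjoinIntegralEquiv_symm_apply_gen ℚ (zq_int q) (K := ℚ⟮zq q⟯) ⟨_, hg⟩
  rw [← hφ] at h3
  have h4 : φ.toRingHom (AdjoinSimple.gen ℚ (zq q)) =
      AdjoinSimple.gen ℚ (zq q) ^ (s : ZMod q).val := h3
  rw [h4]
  rfl

/-- the automorphisms -/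
def aut (s : (ZMod q)ˣ) : Kq q →+* Kq q := (exists_aut q s).choose

theorem aut_gen (s : (ZMod q)ˣ) (g : Kq q) (hg : (g : ℂ) = zq q) :
    ((aut q s g : Kq q) : ℂ) = zq q ^ (s : ZMod q).val := by
  have h1 : g = (AdjoinSimple.gen ℚ (zq q) : ℚ⟮zq q⟯) := Subtype.ext hg
  rw [h1]
  exact (exists_aut q s).choose_spec

theorem zq_mod (m : ℕ) : zq q ^ (m % q) = zq q ^ m := by
  conv_rhs => rw [← Nat.mod_add_div m q, pow_add, pow_mul, (zq_prim q).pow_eq_one, one_pow,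
    mul_one]

theorem zq_mul (s u : (ZMod q)ˣ) :
    zq q ^ ((s * u : (ZMod q)ˣ) : ZMod q).val =
      (zq q ^ (s : ZMod q).val) ^ (u : ZMod q).val := by
  rw [← pow_mul, Units.val_mul, ZMod.val_mul, zq_mod]

/-- the vector of the values of `P` -/
def vl (P : ℤ[X]) (u : (ZMod q)ˣ) : ℂ := aeval (zq q ^ (u : ZMod q).val) P

theorem vl_rat (P : ℤ[X]) (u : (ZMod q)ˣ) : ∃ y : Kq q, (y : ℂ) = vl q P u ∧
    ∀ s : (ZMod q)ˣ, ((aut q s y : Kq q) : ℂ) = vl q P (s * u) := by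
  let g : Kq q := ⟨zq q, mem_adjoin_simple_self ℚ (zq q)⟩
  refine ⟨aeval (g ^ (u : ZMod q).val) P, ?_, ?_⟩
  · have h1 := aeval_algebraMap_apply (A := Kq q) ℂ (g ^ (u : ZMod q).val) P
    change algebraMap (Kq q) ℂ _ = _
    rw [← h1]
    rfl
  · intro s
    have h2 : aut q s (aeval (g ^ (u : ZMod q).val) P) =
        aeval (aut q s g ^ (u : ZMod q).val) P := by
      rw [aeval_def, hom_eval₂, aeval_def, map_pow]
      congr 1
      exact Subsingleton.elim _ _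
    have h1 := aeval_algebraMap_apply (A := Kq q) ℂ (aut q s g ^ (u : ZMod q).val) P
    change algebraMap (Kq q) ℂ _ = _
    rw [h2, ← h1, vl, zq_mul, map_pow]
    have h3 : algebraMap (Kq q) ℂ (aut q s g) = zq q ^ (s : ZMod q).val := aut_gen q s g rfl
    rw [h3]

theorem conj_zq : (starRingEnd ℂ) (zq q) = (zq q)⁻¹ := by
  rw [zq, ← Complex.exp_conj, ← Complex.exp_neg]
  congr 1
  rw [map_div₀, map_mul, map_mul, Complex.conj_I, Complex.conj_ofReal, map_ofNat,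
    Complex.conj_natCast]
  ring

theorem vl_neg (P : ℤ[X]) (u : (ZMod q)ˣ) :
    vl q P (-1 * u) = (starRingEnd ℂ) (vl q P u) := by
  have h1 : zq q ^ ((-1 * u : (ZMod q)ˣ) : ZMod q).val =
      (starRingEnd ℂ) (zq q ^ (u : ZMod q).val) := by
    rw [map_pow, conj_zq, neg_one_mul]
    have h2 : zq q ^ ((-u : (ZMod q)ˣ) : ZMod q).val * zq q ^ (u : ZMod q).val = 1 := by
      rw [← pow_add, ← zq_mod, ← ZMod.val_natCast, Nat.cast_add, ZMod.natCast_val,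
        ZMod.natCast_val, ZMod.cast_id, ZMod.cast_id, Units.val_neg, neg_add_cancel,
        ZMod.val_zero, pow_zero]
    rw [inv_pow]
    exact eq_inv_of_mul_eq_one_left h2
  rw [vl, vl, h1]
  have h3 := aeval_algHom_apply (Complex.conjAe.restrictScalars ℤ).toAlgHom
    (zq q ^ (u : ZMod q).val) P
  exact h3

/-- the vector of a pair of polynomials -/
def ptp (a : ℤ[X] × ℤ[X]) : EE (ZMod q)ˣ := fun i u => vl q (if i = 0 then a.1 else a.2) u

theorem ptp_rat (a : ℤ[X] × ℤ[X]) : IsRat (Kq q) (aut q) (ptp q a) := fun _ u =>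
  vl_rat q _ u

theorem ptp_rl (a : ℤ[X] × ℤ[X]) : IsRl (-1) (ptp q a) := fun _ u => vl_neg q _ u

end

end Pool.Agent.Helper16.LV
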