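import Pool.Agent.Helper16.LV.D
import Pool.Agent.Helper59.LU.Wv

/-!
PROJECT LT2 (MP_274814_nt): the semistability hypothesis of `Pool.Agent.Helper63.LU.Z2_semi` for the
subspaces `W_X` (range of `wvl`), two distinct CM types `s`, `t` of level `q`.
-/

set_option autoImplicit false

namespace Pool.Agent.Helper16.LV

open Finset
open Pool.Agent.Helper34.LT LTG
open Pool.Agent.Helper34.LU
open Pool.Agent.Helper59.LU

noncomputable section

/-- the unit modulo `q` of an element of `UU q` -/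
def ut {q : ℕ} (u : UU q) : (ZMod q)ˣ := ZMod.unitOfCoprime (u : ℕ) (mem_UU.1 u.2).2

theorem ut_val {q : ℕ} (u : UU q) : ((ut u : (ZMod q)ˣ) : ZMod q).val = (u : ℕ) := by
  obtain ⟨h1, h2⟩ := mem_UU.1 u.2
  rw [ut, ZMod.coe_unitOfCoprime, ZMod.val_natCast, Nat.mod_eq_of_lt (by omega)]

theorem val_mem {q : ℕ} (hq : 3 ≤ q) (w : (ZMod q)ˣ) : (w : ZMod q).val ∈ UU q := by
  have : NeZero q := ⟨by omega⟩
  have : Fact (1 < q) := ⟨by omega⟩
  have h1 : (w : ZMod q).val ≠ 0 := by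
    rw [Ne, ZMod.val_eq_zero]
    exact w.ne_zero
  have h2 := ZMod.val_lt (w : ZMod q)
  exact mem_UU.2 ⟨⟨by omega, by omega⟩, ZMod.val_coe_unit_coprime w⟩

theorem ut_of_val {q : ℕ} (hq : 3 ≤ q) (w : (ZMod q)ˣ) : ut ⟨(w : ZMod q).val, val_mem hq w⟩ = w := by
  have : NeZero q := ⟨by omega⟩
  apply Units.ext
  rw [ut, ZMod.coe_unitOfCoprime, ZMod.natCast_val, ZMod.cast_id]

theorem val_neg' {q : ℕ} (hq : 3 ≤ q) (w : (ZMod q)ˣ) :
    (((-1 * w : (ZMod q)ˣ)) : ZMod q).val = q - (w : ZMod q).val := by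
  have : NeZero q := ⟨by omega⟩
  have : Fact (1 < q) := ⟨by omega⟩
  have : NeZero (w : ZMod q) := ⟨w.ne_zero⟩
  rw [neg_one_mul, Units.val_neg, ZMod.val_neg_of_ne_zero]

/-- the type `i` -/
def tyI (s t : Finset ℕ) (i : Fin 2) : Finset ℕ := if i = 0 then s else t

theorem tyI_HS {q : ℕ} {s t : Finset ℕ} (hs : HS q s) (ht : HS q t) (i : Fin 2) :
    HS q (tyI s t i) := by
  rw [tyI]
  split_ifs
  · exact hs
  · exact ht

/-- the units of the type `i` -/
def PhI (q : ℕ) [NeZero q] (s t : Finset ℕ) (i : Fin 2) : Finset (ZMod q)ˣ :=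
  Finset.univ.filter fun w => (w : ZMod q).val ∈ tyI s t i

theorem mem_PhI {q : ℕ} [NeZero q] {s t : Finset ℕ} {i : Fin 2} {w : (ZMod q)ˣ} :
    w ∈ PhI q s t i ↔ (w : ZMod q).val ∈ tyI s t i := by
  rw [PhI, Finset.mem_filter]
  exact ⟨fun h => h.2, fun h => ⟨Finset.mem_univ _, h⟩⟩

theorem PhI_neg {q : ℕ} [NeZero q] {s t : Finset ℕ} (hs : HS q s) (ht : HS q t) (i : Fin 2)
    (w : (ZMod q)ˣ) : w ∈ PhI q s t i ↔ -1 * w ∉ PhI q s t i := by
  rw [mem_PhI, mem_PhI, val_neg' hs.three]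
  obtain ⟨⟨h1, h2⟩, h3⟩ := mem_UU.1 (val_mem hs.three w)
  have h4 := hs.three
  exact (tyI_HS hs ht i).half _ h1 (by omega) h3

theorem PhI_ne {q : ℕ} [NeZero q] {s t : Finset ℕ} (hs : HS q s) (ht : HS q t) (hst : s ≠ t) :
    PhI q s t 0 ≠ PhI q s t 1 := by
  intro h
  apply hst
  ext u
  constructor
  · intro hu
    have h1 : ut ⟨u, HS_mem hs ⟨u, hu⟩⟩ ∈ PhI q s t 0 := by
      rw [mem_PhI, ut_val]
      exact hu
    rw [h, mem_PhI, ut_val] at h1
    exact h1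
  · intro hu
    have h1 : ut ⟨u, HS_mem ht ⟨u, hu⟩⟩ ∈ PhI q s t 1 := by
      rw [mem_PhI, ut_val]
      exact hu
    rw [← h, mem_PhI, ut_val] at h1
    exact h1

/-- the place of a coordinate -/
def plI {q : ℕ} {s t : Finset ℕ} (hs : HS q s) (ht : HS q t) : s ⊕ t → Fin 2 × (ZMod q)ˣ :=
  Sum.elim (fun u => (0, ut ⟨u, HS_mem hs u⟩)) (fun v => (1, ut ⟨v, HS_mem ht v⟩))

theorem ut_inj {q : ℕ} {u v : UU q} (h : ut u = ut v) : (u : ℕ) = v := by
  rw [← ut_val u, h, ut_val]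

theorem plI_inj {q : ℕ} {s t : Finset ℕ} (hs : HS q s) (ht : HS q t) :
    Function.Injective (plI hs ht) := by
  intro a b h
  rcases a with a | a <;> rcases b with b | b
  · have h1 := ut_inj (congrArg Prod.snd h)
    exact congrArg Sum.inl (Subtype.ext h1)
  · exact absurd (congrArg Prod.fst h) (by simp [plI])
  · exact absurd (congrArg Prod.fst h) (by simp [plI])
  · have h1 := ut_inj (congrArg Prod.snd h)
    exact congrArg Sum.inr (Subtype.ext h1)

theorem plI_surj {q : ℕ} [NeZero q] {s t : Finset ℕ} (hs : HS q s) (ht : HS q t) (i : Fin 2)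
    (w : (ZMod q)ˣ) : w ∈ PhI q s t i ↔ ∃ k, plI hs ht k = (i, w) := by
  rw [mem_PhI]
  constructor
  · intro h
    by_cases hi : i = 0
    · subst hi
      refine ⟨Sum.inl ⟨_, h⟩, ?_⟩
      exact congrArg (Prod.mk (0 : Fin 2)) (ut_of_val hs.three w)
    · obtain rfl : i = 1 := by omega
      refine ⟨Sum.inr ⟨_, h⟩, ?_⟩
      exact congrArg (Prod.mk (1 : Fin 2)) (ut_of_val hs.three w)
  · rintro ⟨k, hk⟩
    rcases k with k | k
    · have h1 := congrArg Prod.fst hk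
      have h2 := congrArg Prod.snd hk
      change (0 : Fin 2) = i at h1
      change ut _ = w at h2
      rw [← h1, ← h2, ut_val]
      exact k.2
    · have h1 := congrArg Prod.fst hk
      have h2 := congrArg Prod.snd hk
      change (1 : Fin 2) = i at h1
      change ut _ = w at h2
      rw [← h1, ← h2, ut_val]
      exact k.2

theorem vl_ut {q : ℕ} [NeZero q] (P : Polynomial ℤ) (u : UU q) :
    vl q P (ut u) = Polynomial.aeval (zt q ^ (u : ℕ)) P := by
  rw [vl, ut_val]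
  rfl

/-- the subspace `W_X` in the two formats -/
theorem range_wvl {q : ℕ} [NeZero q] {s t : Finset ℕ} (hs : HS q s) (ht : HS q t)
    (X : II s t → ℂ) : LinearMap.range (wvl hs ht X) =
      LinearMap.range (wm (-1 : (ZMod q)ˣ) (plI hs ht) (fun k => X (Sum.inl k))
        (fun k => X (Sum.inr k))) := by
  apply le_antisymm
  · rintro _ ⟨x, rfl⟩
    refine ⟨fun w => x ⟨_, val_mem hs.three w⟩, ?_⟩
    funext k
    rcases k with (k | k) | (k | k)
    · rw [wm_inl]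
      change _ = X _ * x _
      congr 2
      exact Subtype.ext (ut_val _)
    · rw [wm_inl]
      change _ = X _ * x _
      congr 2
      exact Subtype.ext (ut_val _)
    · rw [wm_inr]
      change _ = X _ * x _
      congr 2
      apply Subtype.ext
      change ((-1 * ut _ : (ZMod q)ˣ) : ZMod q).val = _
      rw [val_neg' hs.three, ut_val]
      rfl
    · rw [wm_inr]
      change _ = X _ * x _
      congr 2
      apply Subtype.ext
      change ((-1 * ut _ : (ZMod q)ˣ) : ZMod q).val = _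
      rw [val_neg' hs.three, ut_val]
      rfl
  · rintro _ ⟨z, rfl⟩
    refine ⟨fun u => z (ut u), ?_⟩
    funext k
    rcases k with (k | k) | (k | k)
    · rfl
    · rfl
    · rw [wm_inr]
      change X _ * z _ = _
      congr 2
      apply Units.ext
      apply ZMod.val_injective
      rw [ut_val]
      change _ = ((-1 * ut _ : (ZMod q)ˣ) : ZMod q).val
      rw [val_neg' hs.three, ut_val]
      rfl
    · rw [wm_inr]
      change X _ * z _ = _
      congr 2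
      apply Units.ext
      apply ZMod.val_injective
      rw [ut_val]
      change _ = ((-1 * ut _ : (ZMod q)ˣ) : ZMod q).val
      rw [val_neg' hs.three, ut_val]
      rfl

/-- The hypothesis of `Z2_semi` for `W_X`. -/
theorem semi_app {q : ℕ} {s t : Finset ℕ} (hs : HS q s) (ht : HS q t) {ρ1 ρ2 : ℕ → ℂ}
    {κ1 : s → ℂ} {κ2 : t → ℂ} (h1 : ∀ u ∈ s, ρ1 u ≠ 0) (h2 : ∀ v ∈ t, ρ2 v ≠ 0)
    (hk1 : ∀ u, κ1 u ≠ 0) (hk2 : ∀ v, κ2 v ≠ 0) (hst : s ≠ t)
    (X : II s t → ℂ) (hX : ∀ i, X i ≠ 0) (H : Submodule ℂ ((s ⊕ t) ⊕ (s ⊕ t) → ℂ)) (hH : H ≠ ⊤)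
    (hS : ∀ x ∈ H, (fun i => x (Sum.inl i)) ∈ Submodule.span ℝ
      {y : s ⊕ t → ℂ | ∃ a, y = gm q s t ρ1 ρ2 a ∧
        Sum.elim (gm q s t ρ1 ρ2 a) (sgm ρ1 ρ2 κ1 κ2 (gm q s t ρ1 ρ2 a)) ∈ H}) :
    ¬ LinearMap.range (wvl hs ht X) ≤ H ∧
      Fintype.card (s ⊕ t) + Module.finrank ℂ
        (LinearMap.range (wvl hs ht X) ⊓ H : Submodule ℂ ((s ⊕ t) ⊕ (s ⊕ t) → ℂ)) ≤
        Module.finrank ℂ (LinearMap.range (wvl hs ht X)) + Module.finrank ℂ
          (H ⊓ LinearMap.ker (LinearMap.funLeft ℂ ℂ (Sum.inl : s ⊕ t → (s ⊕ t) ⊕ (s ⊕ t))) :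
            Submodule ℂ ((s ⊕ t) ⊕ (s ⊕ t) → ℂ)) := by
  classical
  have : NeZero q := ⟨by have := hs.three; omega⟩
  rw [range_wvl hs ht X]
  refine semi (U := (ZMod q)ˣ) (ι := s ⊕ t) (n := -1) (Φ := PhI q s t) (pl := plI hs ht)
    (gm q s t ρ1 ρ2) (sgm ρ1 ρ2 κ1 κ2) (by rw [neg_mul_neg, one_mul]) (PhI_neg hs ht) (PhI_ne hs ht hst)
    (Kq q) (aut q) (plI_inj hs ht) (plI_surj hs ht) (ptp q) (ptp_rat q) (ptp_rl q)
    (Sum.elim (fun u => ρ1 u) (fun v => ρ2 v)) (Sum.elim κ1 κ2) ?_ ?_ ?_ ?_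
    (fun k => X (Sum.inl k)) (fun k => X (Sum.inr k)) (fun k => hX _) (fun k => hX _) H hH hS
  · rintro (k | k)
    · exact h1 k k.2
    · exact h2 k k.2
  · rintro (k | k)
    · exact hk1 k
    · exact hk2 k
  · rintro a (k | k)
    · change ρ1 k * pt q s a.1 k = ρ1 k * vl q _ (ut _)
      rw [vl_ut]
      rfl
    · change ρ2 k * pt q t a.2 k = ρ2 k * vl q _ (ut _)
      rw [vl_ut]
      rfl
  · intro a k
    rw [sgm_gm q κ1 κ2 h1 h2 a]
    rcases k with k | k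
    · change κ1 k * (starRingEnd ℂ) (pt q s a.1 k) = κ1 k * vl q _ (-1 * ut _)
      rw [vl_neg, vl_ut]
      rfl
    · change κ2 k * (starRingEnd ℂ) (pt q t a.2 k) = κ2 k * vl q _ (-1 * ut _)
      rw [vl_neg, vl_ut]
      rfl

end

end Pool.Agent.Helper16.LV
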